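import Pool.Agent.HI61.Final
import Pool.Agent.HI61.UConvex
import Pool.Agent.HI61.MilPet

/-!
# MP_598d42_an : embedding hereditarily indecomposable spaces into ones with a basis

Every separable HI real Banach space `X` which is superreflexive (isomorphic to a uniformly convex
space) or, more generally, which is reflexive, has finite cotype and has an infinite dimensional
subspace with non-trivial type, embeds isomorphically into an HI Banach space with a Schauder basis.
-/

namespace Pool.Agent.Results.MP_598d42_an.TypeCotypeHI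

open Finset Filter Topology

universe u

/-- `X` is hereditarily indecomposable: no closed infinite dimensional subspace `Y` of `X` is the
direct sum of two closed infinite dimensional subspaces `Z₀`, `Z₁`.  (For a Banach space `X` an
algebraic direct sum decomposition of a closed subspace into closed subspaces is topological, by
the open mapping theorem.) -/
def IsHI (X : Type*) [NormedAddCommGroup X] [NormedSpace ℝ X] : Prop :=
  ∀ Y : Submodule ℝ X, IsClosed (Y : Set X) → ¬ FiniteDimensional ℝ Y →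
    ¬ ∃ Z₀ Z₁ : Submodule ℝ X, IsClosed (Z₀ : Set X) ∧ IsClosed (Z₁ : Set X) ∧
      ¬ FiniteDimensional ℝ Z₀ ∧ ¬ FiniteDimensional ℝ Z₁ ∧ Z₀ ⊓ Z₁ = ⊥ ∧ Z₀ ⊔ Z₁ = Y

/-- `W` has a Schauder basis: there is a sequence `e` such that every vector has a unique expansion
`∑ a_i e_i`, converging in norm. -/
def HasBasis (W : Type*) [NormedAddCommGroup W] [NormedSpace ℝ W] : Prop :=
  ∃ e : ℕ → W, ∀ w : W, ∃! a : ℕ → ℝ,
    Tendsto (fun n => ∑ i ∈ range n, a i • e i) atTop (𝓝 w)

/-- The canonical map of `X` into its bidual is onto. -/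
def IsReflexive (X : Type*) [NormedAddCommGroup X] [NormedSpace ℝ X] : Prop :=
  Function.Surjective (NormedSpace.inclusionInDoubleDual ℝ X)

/-- Equal norm cotype with exponent `q` and constant `c`, with a choice of signs instead of the
average over the signs (so a consequence of cotype `q`): any `n` vectors of norm at least one have
signs `θ` with `‖∑ θ_i x_i‖ ≥ c n^(1/q)`. -/
def SignCotype (X : Type*) [NormedAddCommGroup X] [NormedSpace ℝ X] (q c : ℝ) : Prop :=
  ∀ (n : ℕ) (x : Fin n → X), (∀ i, 1 ≤ ‖x i‖) →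
    ∃ θ : Fin n → ℝ, (∀ i, |θ i| = 1) ∧ c * (n : ℝ) ^ (1 / q) ≤ ‖∑ i, θ i • x i‖

/-- Equal norm type with exponent `p` and constant `C`, with a choice of signs instead of the
average over the signs (so a consequence of type `p`): any `n` vectors of norm at most one have
signs `θ` with `‖∑ θ_i x_i‖ ≤ C n^(1/p)`. -/
def SignType (X : Type*) [NormedAddCommGroup X] [NormedSpace ℝ X] (p C : ℝ) : Prop :=
  ∀ (n : ℕ) (x : Fin n → X), (∀ i, ‖x i‖ ≤ 1) →
    ∃ θ : Fin n → ℝ, (∀ i, |θ i| = 1) ∧ ‖∑ i, θ i • x i‖ ≤ C * (n : ℝ) ^ (1 / p)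

/-- `X` is isomorphic to a uniformly convex space (equivalently, by Enflo's theorem, `X` is
superreflexive). -/
def UniformlyConvexifiable (X : Type u) [NormedAddCommGroup X] [NormedSpace ℝ X] : Prop :=
  ∃ (Z : Type u) (_ : NormedAddCommGroup Z) (_ : NormedSpace ℝ Z),
    UniformConvexSpace Z ∧ Nonempty (X ≃L[ℝ] Z)

/-- `X` embeds into an infinite dimensional HI Banach space with a Schauder basis. -/
def EmbedsIntoHIWithBasis (X : Type*) [NormedAddCommGroup X] [NormedSpace ℝ X] : Prop :=
  ∃ (W : Type) (_ : NormedAddCommGroup W) (_ : NormedSpace ℝ W), CompleteSpace W ∧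
    ¬ FiniteDimensional ℝ W ∧ IsHI W ∧ HasBasis W ∧
    ∃ (T : X →L[ℝ] W) (δ : ℝ), 0 < δ ∧ ∀ x, δ * ‖x‖ ≤ ‖T x‖

theorem result (X : Type u) [NormedAddCommGroup X] [NormedSpace ℝ X] [CompleteSpace X]
    [TopologicalSpace.SeparableSpace X] (hX : ¬ FiniteDimensional ℝ X) (hHI : IsHI X)
    (h : UniformlyConvexifiable X ∨
      (IsReflexive X ∧ (∃ q c : ℝ, 1 ≤ q ∧ 0 < c ∧ SignCotype X q c) ∧
        ∃ Y : Submodule ℝ X, ¬ FiniteDimensional ℝ Y ∧ ∃ p C : ℝ, 1 < p ∧ SignType Y p C)) :
    EmbedsIntoHIWithBasis X := by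
  rcases h with ⟨Z, i1, i2, hUC, ⟨e⟩⟩ | ⟨hrefl, ⟨q, c, hq, hc, hcot⟩, Y, hY, p, C, hp, htyp⟩
  · have : CompleteSpace Z :=
      (completeSpace_congr (e := e.toEquiv) e.isUniformEmbedding).1 inferInstance
    have hreflX : IsReflexive X :=
      HI61.reflexive_congr e.symm (HI61.reflexive_of_uniformConvex Z)
    obtain ⟨p, C, hp, htyp⟩ := HI61.signType_of_uniformConvex Z
    obtain ⟨q, c, hq, hc, hcot⟩ := HI61.signCotype_of_uniformConvex Z
    obtain ⟨c', hc', hcot'⟩ := HI61.signCotype_congr e.symm q c hc hcot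
    have htop : HI61.SignType (⊤ : Submodule ℝ Z) p C := by
      intro n x hx
      obtain ⟨θ, hθ, h⟩ := htyp n (fun i => (x i : Z)) hx
      refine ⟨θ, hθ, le_trans (le_of_eq ?_) h⟩
      change ‖((∑ i, θ i • x i : (⊤ : Submodule ℝ Z)) : Z)‖ = _
      congr 1
      rw [Submodule.coe_sum]
      rfl
    obtain ⟨Y, C', htyp', hY⟩ := HI61.signType_congr e.symm ⊤ p C htop
    have hZ : ¬ FiniteDimensional ℝ (⊤ : Submodule ℝ Z) := by
      intro hfd
      have h2 : FiniteDimensional ℝ Z :=
        LinearEquiv.finiteDimensional (Submodule.topEquiv (R := ℝ) (M := Z))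
      exact hX (LinearEquiv.finiteDimensional e.toLinearEquiv.symm)
    exact HI61.embed_main hX hHI hreflX q c' hq hc' hcot' Y (hY hZ) p C' hp htyp'
  · exact HI61.embed_main hX hHI hrefl q c hq hc hcot Y hY p C hp htyp

end Pool.Agent.Results.MP_598d42_an.TypeCotypeHI
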